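import Pool.Agent.Q19.ThreeTwo

set_option autoImplicit false

/-!
# MP_97f678_al: minimal admissible quotients of two-strand surface braid groups

For every `b ≥ 2` the smallest order of a finite quotient of the pure braid group
`P₂(Σ_b)` in which `A₁₂` does not vanish is `2 ^ (2 b + 1)`.
-/

namespace Pool.Agent.Results.MP_97f678_al.MinimalOrder

open scoped commutatorElement

/-- The generators of the pure braid group on two strands of the closed orientable surface of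
genus `b`: `ρ₁ⱼ, τ₁ⱼ` (first strand), `ρ₂ⱼ, τ₂ⱼ` (second strand), and `A₁₂`. -/
inductive Gen (b : ℕ) : Type
  | r1 (j : Fin b) : Gen b
  | t1 (j : Fin b) : Gen b
  | r2 (j : Fin b) : Gen b
  | t2 (j : Fin b) : Gen b
  | a12 : Gen b

section Relations

variable {b : ℕ}

/-- letters of the free group -/
def ρ₁ (j : Fin b) : FreeGroup (Gen b) := FreeGroup.of (Gen.r1 j)
@[inherit_doc ρ₁] def τ₁ (j : Fin b) : FreeGroup (Gen b) := FreeGroup.of (Gen.t1 j)
@[inherit_doc ρ₁] def ρ₂ (j : Fin b) : FreeGroup (Gen b) := FreeGroup.of (Gen.r2 j)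
@[inherit_doc ρ₁] def τ₂ (j : Fin b) : FreeGroup (Gen b) := FreeGroup.of (Gen.t2 j)
@[inherit_doc ρ₁] def A₁₂ (b : ℕ) : FreeGroup (Gen b) := FreeGroup.of Gen.a12

/-- The defining relations `x = y` of the standard presentation of `P₂(Σ_b)`
(Gonçalves–Guaschi, in the form used by Causin–Polizzi); `⁅x, y⁆ = x y x⁻¹ y⁻¹`. -/
inductive Rel (b : ℕ) : FreeGroup (Gen b) → FreeGroup (Gen b) → Prop
  | surface₁ : Rel b
      (((List.finRange b).reverse.map fun j => ⁅(ρ₁ j)⁻¹, (τ₁ j)⁻¹⁆ * (τ₁ j)⁻¹).prod *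
        ((List.finRange b).map fun j => τ₁ j).prod) (A₁₂ b)
  | surface₂ : Rel b
      (((List.finRange b).map fun j => ⁅(ρ₂ j)⁻¹, τ₂ j⁆ * τ₂ j).prod *
        ((List.finRange b).reverse.map fun j => (τ₂ j)⁻¹).prod) (A₁₂ b)⁻¹
  | rr_lt (j k : Fin b) (h : j < k) : Rel b ⁅ρ₁ j, ρ₂ k⁆ 1
  | rr_eq (j : Fin b) : Rel b ⁅ρ₁ j, ρ₂ j⁆ 1
  | rr_gt (j k : Fin b) (h : k < j) :
      Rel b ⁅ρ₁ j, ρ₂ k⁆ ((A₁₂ b)⁻¹ * ρ₂ k * (ρ₂ j)⁻¹ * A₁₂ b * ρ₂ j * (ρ₂ k)⁻¹)
  | rt_lt (j k : Fin b) (h : j < k) : Rel b ⁅ρ₁ j, τ₂ k⁆ 1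
  | rt_eq (j : Fin b) : Rel b ⁅ρ₁ j, τ₂ j⁆ (A₁₂ b)⁻¹
  | rt_gt (j k : Fin b) (h : k < j) : Rel b ⁅ρ₁ j, τ₂ k⁆ ⁅(A₁₂ b)⁻¹, τ₂ k⁆
  | ra (j : Fin b) : Rel b ⁅ρ₁ j, A₁₂ b⁆ ⁅(ρ₂ j)⁻¹, A₁₂ b⁆
  | tr_lt (j k : Fin b) (h : j < k) : Rel b ⁅τ₁ j, ρ₂ k⁆ 1
  | tr_eq (j : Fin b) : Rel b ⁅τ₁ j, ρ₂ j⁆ ((τ₂ j)⁻¹ * A₁₂ b * τ₂ j)
  | tr_gt (j k : Fin b) (h : k < j) : Rel b ⁅τ₁ j, ρ₂ k⁆ ⁅(τ₂ j)⁻¹, A₁₂ b⁆
  | tt_lt (j k : Fin b) (h : j < k) : Rel b ⁅τ₁ j, τ₂ k⁆ 1
  | tt_eq (j : Fin b) : Rel b ⁅τ₁ j, τ₂ j⁆ ⁅(τ₂ j)⁻¹, A₁₂ b⁆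
  | tt_gt (j k : Fin b) (h : k < j) :
      Rel b ⁅τ₁ j, τ₂ k⁆
        ((τ₂ j)⁻¹ * A₁₂ b * τ₂ j * (A₁₂ b)⁻¹ * τ₂ k * A₁₂ b * (τ₂ j)⁻¹ * (A₁₂ b)⁻¹ * τ₂ j * (τ₂ k)⁻¹)
  | ta (j : Fin b) : Rel b ⁅τ₁ j, A₁₂ b⁆ ⁅(τ₂ j)⁻¹, A₁₂ b⁆

end Relations

/-- The pure braid group on two strands of the closed orientable surface of genus `b`. -/
abbrev P₂ (b : ℕ) : Type :=
  PresentedGroup {w : FreeGroup (Gen b) | ∃ x y, Rel b x y ∧ w = x * y⁻¹}

/-- the generators in the group -/
def gen {b : ℕ} (s : Gen b) : P₂ b := PresentedGroup.of s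

section Lower

variable {b : ℕ} {G : Type*} [Group G]

theorem rel_holds {x y : FreeGroup (Gen b)} (h : Rel b x y) (φ : P₂ b →* G) :
    FreeGroup.lift (fun s => φ (gen s)) x = FreeGroup.lift (fun s => φ (gen s)) y := by
  have h1 : PresentedGroup.mk {w : FreeGroup (Gen b) | ∃ x y, Rel b x y ∧ w = x * y⁻¹} x =
      PresentedGroup.mk _ y :=
    PresentedGroup.mk_eq_mk_of_mul_inv_mem ⟨x, y, h, rfl⟩
  have h2 : (φ.comp (PresentedGroup.mk
      {w : FreeGroup (Gen b) | ∃ x y, Rel b x y ∧ w = x * y⁻¹})) =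
      FreeGroup.lift (fun s => φ (gen s)) := by
    ext s
    simp [gen, PresentedGroup.of]
  rw [← h2, MonoidHom.comp_apply, MonoidHom.comp_apply, h1]

/-- the sequences of generators -/
def seq (φ : P₂ b →* G) (f g : Fin b → Gen b) (i : ℕ) : G :=
  if h : i / 2 < b then (if i % 2 = 0 then φ (gen (f ⟨i / 2, h⟩)) else φ (gen (g ⟨i / 2, h⟩)))
  else 1

theorem comm_iff {x y : G} : ⁅x, y⁆ = 1 ↔ Commute x y := commutatorElement_eq_one_iff_commute

section Facts

variable (φ : P₂ b →* G)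

theorem rr_lt (j k : Fin b) (h : j < k) : Commute (φ (gen (.r1 j))) (φ (gen (.r2 k))) := by
  have := rel_holds (Rel.rr_lt j k h) φ
  simpa [ρ₁, ρ₂, τ₁, τ₂, A₁₂, map_commutatorElement, comm_iff] using this

theorem rr_eq (j : Fin b) : Commute (φ (gen (.r1 j))) (φ (gen (.r2 j))) := by
  have := rel_holds (Rel.rr_eq j) φ
  simpa [ρ₁, ρ₂, τ₁, τ₂, A₁₂, map_commutatorElement, comm_iff] using this

theorem rt_lt (j k : Fin b) (h : j < k) : Commute (φ (gen (.r1 j))) (φ (gen (.t2 k))) := by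
  have := rel_holds (Rel.rt_lt j k h) φ
  simpa [ρ₁, ρ₂, τ₁, τ₂, A₁₂, map_commutatorElement, comm_iff] using this

theorem tr_lt (j k : Fin b) (h : j < k) : Commute (φ (gen (.t1 j))) (φ (gen (.r2 k))) := by
  have := rel_holds (Rel.tr_lt j k h) φ
  simpa [ρ₁, ρ₂, τ₁, τ₂, A₁₂, map_commutatorElement, comm_iff] using this

theorem tt_lt (j k : Fin b) (h : j < k) : Commute (φ (gen (.t1 j))) (φ (gen (.t2 k))) := by
  have := rel_holds (Rel.tt_lt j k h) φ
  simpa [ρ₁, ρ₂, τ₁, τ₂, A₁₂, map_commutatorElement, comm_iff] using this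

theorem rt_eq (hA : φ (gen .a12) ≠ 1) (j : Fin b) :
    ¬ Commute (φ (gen (.r1 j))) (φ (gen (.t2 j))) := by
  have := rel_holds (Rel.rt_eq j) φ
  simp only [ρ₁, τ₂, A₁₂, map_commutatorElement, FreeGroup.lift_apply_of, map_inv] at this
  rw [← comm_iff, this]
  simpa using hA

theorem tr_eq (hA : φ (gen .a12) ≠ 1) (j : Fin b) :
    ¬ Commute (φ (gen (.t1 j))) (φ (gen (.r2 j))) := by
  have := rel_holds (Rel.tr_eq j) φ
  simp only [τ₁, ρ₂, τ₂, A₁₂, map_commutatorElement, FreeGroup.lift_apply_of, map_inv,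
    map_mul] at this
  rw [← comm_iff, this]
  intro h
  apply hA
  have h2 : φ (gen .a12) = φ (gen (.t2 j)) *
      ((φ (gen (.t2 j)))⁻¹ * φ (gen .a12) * φ (gen (.t2 j))) * (φ (gen (.t2 j)))⁻¹ := by group
  rw [h2, h]; group

/-- if `A₁₂` vanishes then the two strands commute -/
theorem comm_of_trivial (hA : φ (gen .a12) = 1) (j k : Fin b) :
    Commute (φ (gen (.r1 j))) (φ (gen (.r2 k))) ∧ Commute (φ (gen (.r1 j))) (φ (gen (.t2 k))) ∧
    Commute (φ (gen (.t1 j))) (φ (gen (.r2 k))) ∧ Commute (φ (gen (.t1 j))) (φ (gen (.t2 k))) := by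
  rcases lt_trichotomy j k with h | rfl | h
  · exact ⟨rr_lt φ j k h, rt_lt φ j k h, tr_lt φ j k h, tt_lt φ j k h⟩
  · refine ⟨rr_eq φ j, ?_, ?_, ?_⟩
    · have := rel_holds (Rel.rt_eq j) φ
      simpa [ρ₁, ρ₂, τ₁, τ₂, A₁₂, map_commutatorElement, hA, comm_iff] using this
    · have := rel_holds (Rel.tr_eq j) φ
      simpa [ρ₁, ρ₂, τ₁, τ₂, A₁₂, map_commutatorElement, hA, comm_iff] using this
    · have := rel_holds (Rel.tt_eq j) φ
      simpa [ρ₁, ρ₂, τ₁, τ₂, A₁₂, map_commutatorElement, hA, comm_iff] using this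
  · refine ⟨?_, ?_, ?_, ?_⟩
    · have := rel_holds (Rel.rr_gt j k h) φ
      simpa [ρ₁, ρ₂, τ₁, τ₂, A₁₂, map_commutatorElement, hA, comm_iff] using this
    · have := rel_holds (Rel.rt_gt j k h) φ
      simpa [ρ₁, ρ₂, τ₁, τ₂, A₁₂, map_commutatorElement, hA, comm_iff] using this
    · have := rel_holds (Rel.tr_gt j k h) φ
      simpa [ρ₁, ρ₂, τ₁, τ₂, A₁₂, map_commutatorElement, hA, comm_iff] using this
    · have := rel_holds (Rel.tt_gt j k h) φ
      simpa [ρ₁, ρ₂, τ₁, τ₂, A₁₂, map_commutatorElement, hA, comm_iff] using this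

open Q19.CentChain

/-- the first staircase -/
theorem stair1 (hA : φ (gen .a12) ≠ 1) :
    Staircase (2 * b) (seq φ Gen.r1 Gen.t1) (seq φ Gen.t2 Gen.r2) where
  comm i j hij hj := by
    have hi' : i / 2 < b := by omega
    have hj' : j / 2 < b := by omega
    simp only [seq, hi', hj', dif_pos]
    by_cases hq : i / 2 = j / 2
    · have h1 : i % 2 = 0 := by omega
      have h2 : j % 2 ≠ 0 := by omega
      rw [if_pos h1, if_neg h2]
      have : (⟨j / 2, hj'⟩ : Fin b) = ⟨i / 2, hi'⟩ := Fin.ext hq.symm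
      rw [this]
      exact rr_eq φ _
    · have hlt : (⟨i / 2, hi'⟩ : Fin b) < ⟨j / 2, hj'⟩ := by
        rw [Fin.lt_def]; show i / 2 < j / 2; omega
      split_ifs
      · exact rt_lt φ _ _ hlt
      · exact rr_lt φ _ _ hlt
      · exact tt_lt φ _ _ hlt
      · exact tr_lt φ _ _ hlt
  ncomm i hi := by
    have hi' : i / 2 < b := by omega
    simp only [seq, hi', dif_pos]
    split_ifs
    · exact rt_eq φ hA _
    · exact tr_eq φ hA _

/-- reversal of `Fin b` -/
theorem stair2 (hA : φ (gen .a12) ≠ 1) :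
    Staircase (2 * b) (seq φ (fun j => Gen.r2 j.rev) (fun j => Gen.t2 j.rev))
      (seq φ (fun j => Gen.t1 j.rev) (fun j => Gen.r1 j.rev)) where
  comm i j hij hj := by
    have hi' : i / 2 < b := by omega
    have hj' : j / 2 < b := by omega
    simp only [seq, hi', hj', dif_pos]
    by_cases hq : i / 2 = j / 2
    · have h1 : i % 2 = 0 := by omega
      have h2 : j % 2 ≠ 0 := by omega
      rw [if_pos h1, if_neg h2]
      have : (⟨j / 2, hj'⟩ : Fin b) = ⟨i / 2, hi'⟩ := Fin.ext hq.symm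
      rw [this]
      exact (rr_eq φ _).symm
    · have hlt : (⟨j / 2, hj'⟩ : Fin b).rev < (⟨i / 2, hi'⟩ : Fin b).rev := by
        rw [Fin.rev_lt_rev, Fin.lt_def]; show i / 2 < j / 2; omega
      split_ifs
      · exact (tr_lt φ _ _ hlt).symm
      · exact (rr_lt φ _ _ hlt).symm
      · exact (tt_lt φ _ _ hlt).symm
      · exact (rt_lt φ _ _ hlt).symm
  ncomm i hi := by
    have hi' : i / 2 < b := by omega
    simp only [seq, hi', dif_pos]
    split_ifs
    · exact fun h => tr_eq φ hA _ h.symm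
    · exact fun h => rt_eq φ hA _ h.symm

end Facts

/-- The lower bound. -/
theorem lower_bound [Finite G] (hb : 2 ≤ b) (φ : P₂ b →* G) (hφ : Function.Surjective φ)
    (hA : φ (gen .a12) ≠ 1) : 2 ^ (2 * b + 1) ≤ Nat.card G := by
  refine Q19.ThreeTwo.lower (2 * b) (by omega) _ _ _ _ (stair1 φ hA) (stair2 φ hA)
    (φ (gen .a12)) ?_ ?_
  · -- generation
    rw [eq_top_iff]
    intro g _
    obtain ⟨x, rfl⟩ := hφ g
    have hx : x ∈ Subgroup.closure (Set.range (PresentedGroup.of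
        (rels := {w : FreeGroup (Gen b) | ∃ x y, Rel b x y ∧ w = x * y⁻¹}))) := by
      rw [PresentedGroup.closure_range_of]; trivial
    have hle : Subgroup.closure (Set.range (PresentedGroup.of
        (rels := {w : FreeGroup (Gen b) | ∃ x y, Rel b x y ∧ w = x * y⁻¹}))) ≤
        (Subgroup.closure ({g | ∃ k < 2 * b, g = seq φ Gen.r1 Gen.t1 k} ∪
          {g | ∃ k < 2 * b, g = seq φ (fun j => Gen.r2 j.rev) (fun j => Gen.t2 j.rev) k} ∪
            {φ (gen .a12)})).comap φ := by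
      rw [Subgroup.closure_le]
      rintro _ ⟨s, rfl⟩
      rw [SetLike.mem_coe, Subgroup.mem_comap]
      apply Subgroup.subset_closure
      rcases s with j | j | j | j | _
      · left; left
        refine ⟨2 * j.1, by omega, ?_⟩
        have h1 : 2 * j.1 / 2 = j.1 := by omega
        have h2 : 2 * j.1 % 2 = 0 := by omega
        simp only [seq, h1, h2, j.2, dif_pos, if_pos]
        rfl
      · left; left
        refine ⟨2 * j.1 + 1, by omega, ?_⟩
        have h1 : (2 * j.1 + 1) / 2 = j.1 := by omega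
        have h2 : ¬ (2 * j.1 + 1) % 2 = 0 := by omega
        simp only [seq, h1, h2, j.2, dif_pos, if_false]
        rfl
      · left; right
        refine ⟨2 * j.rev.1, by omega, ?_⟩
        have h1 : 2 * j.rev.1 / 2 = j.rev.1 := by omega
        have h2 : 2 * j.rev.1 % 2 = 0 := by omega
        simp only [seq, h1, h2, j.rev.2, dif_pos, if_pos]
        show φ (gen (.r2 j)) = φ (gen (.r2 j.rev.rev))
        rw [Fin.rev_rev]
      · left; right
        refine ⟨2 * j.rev.1 + 1, by omega, ?_⟩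
        have h1 : (2 * j.rev.1 + 1) / 2 = j.rev.1 := by omega
        have h2 : ¬ (2 * j.rev.1 + 1) % 2 = 0 := by omega
        simp only [seq, h1, h2, j.rev.2, dif_pos, if_false]
        show φ (gen (.t2 j)) = φ (gen (.t2 j.rev.rev))
        rw [Fin.rev_rev]
      · right; rfl
    exact hle hx
  · intro θ
    have key : θ (φ (gen .a12)) = 1 := by
      by_contra hne
      have h1 := (stair1 (θ.comp φ) hne).top (2 * b) le_rfl
      have h2 : Nat.card (Equiv.Perm (Fin 3)) = 6 := by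
        rw [Nat.card_perm]; simp; rfl
      rw [h2] at h1
      have h3 : 2 ^ 4 ≤ 2 ^ (2 * b) := Nat.pow_le_pow_right (by norm_num) (by omega)
      have h4 : 0 < Nat.card (Q19.CentChain.C (seq (θ.comp φ) Gen.r1 Gen.t1) (2 * b)) := Nat.card_pos
      have h5 : 2 ^ (2 * b) ≤ 2 ^ (2 * b) * Nat.card (Q19.CentChain.C (seq (θ.comp φ) Gen.r1 Gen.t1) (2 * b)) :=
        Nat.le_mul_of_pos_right _ h4
      omega
    refine ⟨key, fun i j hi hj => ?_⟩
    have hi' : i / 2 < b := by omega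
    have hj' : j / 2 < b := by omega
    have h := comm_of_trivial (θ.comp φ) key ⟨i / 2, hi'⟩ (⟨j / 2, hj'⟩ : Fin b).rev
    simp only [seq, hi', hj', dif_pos]
    split_ifs
    · exact h.1
    · exact h.2.1
    · exact h.2.2.1
    · exact h.2.2.2

end Lower

section Upper

/-- matrices over the field with two elements -/
theorem exists_matrices : ∀ b : ℕ, 1 ≤ b → ∃ S T : Matrix (Fin b) (Fin b) (ZMod 2),
    S.transpose * T = 1 ∧ S.trace = 1 ∧ T.trace = 1
  | 0, h => absurd h (by norm_num)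
  | 1, _ => ⟨1, 1, by simp, by simp, by simp⟩
  | 2, _ => ⟨!![1, 1; 1, 0], !![0, 1; 1, 1], by decide +kernel, by decide +kernel,
      by decide +kernel⟩
  | b + 3, _ => by
    obtain ⟨S, T, h1, h2, h3⟩ := exists_matrices (b + 1) (by omega)
    have tr : ∀ M : Matrix (Fin (b + 1)) (Fin (b + 1)) (ZMod 2), M.trace = 1 →
        (Matrix.reindex (finSumFinEquiv (m := b + 1) (n := 2)) (finSumFinEquiv (m := b + 1) (n := 2))
          (Matrix.fromBlocks M 0 0 1)).trace = 1 := by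
      intro M hM
      have h4 : (Matrix.reindex (finSumFinEquiv (m := b + 1) (n := 2))
          (finSumFinEquiv (m := b + 1) (n := 2)) (Matrix.fromBlocks M 0 0 1)).trace =
          (Matrix.fromBlocks M 0 0 (1 : Matrix (Fin 2) (Fin 2) (ZMod 2))).trace := by
        simp only [Matrix.trace, Matrix.diag_apply, Matrix.reindex_apply, Matrix.submatrix_apply]
        exact Equiv.sum_comp finSumFinEquiv.symm
          (fun x => Matrix.fromBlocks M 0 0 (1 : Matrix (Fin 2) (Fin 2) (ZMod 2)) x x)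
      have h5 : (Matrix.fromBlocks M 0 0 (1 : Matrix (Fin 2) (Fin 2) (ZMod 2))).trace =
          M.trace + (1 : Matrix (Fin 2) (Fin 2) (ZMod 2)).trace := by
        simp [Matrix.trace, Fintype.sum_sum_type]
      rw [h4, h5, hM]
      decide +kernel
    refine ⟨Matrix.reindex (finSumFinEquiv (m := b + 1) (n := 2))
      (finSumFinEquiv (m := b + 1) (n := 2)) (Matrix.fromBlocks S 0 0 1),
      Matrix.reindex (finSumFinEquiv (m := b + 1) (n := 2)) (finSumFinEquiv (m := b + 1) (n := 2))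
        (Matrix.fromBlocks T 0 0 1), ?_, tr S h2, tr T h3⟩
    rw [Matrix.transpose_reindex, Matrix.fromBlocks_transpose]
    simp only [Matrix.reindex_apply]
    rw [Matrix.submatrix_mul_equiv, Matrix.fromBlocks_multiply]
    simp [h1]

/-- The Heisenberg group over the field with two elements. -/
@[ext] structure Heis (b : ℕ) where
  c : ZMod 2
  p : Fin b → ZMod 2
  q : Fin b → ZMod 2

variable {b : ℕ}

open Matrix in
instance : Group (Heis b) where
  mul x y := ⟨x.c + y.c + x.q ⬝ᵥ y.p, x.p + y.p, x.q + y.q⟩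
  one := ⟨0, 0, 0⟩
  inv x := ⟨-x.c + x.q ⬝ᵥ x.p, -x.p, -x.q⟩
  mul_assoc x y z := by
    apply Heis.ext
    · show x.c + y.c + x.q ⬝ᵥ y.p + z.c + (x.q + y.q) ⬝ᵥ z.p =
        x.c + (y.c + z.c + y.q ⬝ᵥ z.p) + x.q ⬝ᵥ (y.p + z.p)
      rw [add_dotProduct, dotProduct_add]; ring
    · exact add_assoc _ _ _
    · exact add_assoc _ _ _
  one_mul x := by
    apply Heis.ext
    · show 0 + x.c + 0 ⬝ᵥ x.p = x.c
      simp
    · exact zero_add _
    · exact zero_add _
  mul_one x := by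
    apply Heis.ext
    · show x.c + 0 + x.q ⬝ᵥ 0 = x.c
      simp
    · exact add_zero _
    · exact add_zero _
  inv_mul_cancel x := by
    apply Heis.ext
    · show -x.c + x.q ⬝ᵥ x.p + x.c + (-x.q) ⬝ᵥ x.p = 0
      rw [neg_dotProduct]; ring
    · exact neg_add_cancel _
    · exact neg_add_cancel _

open Matrix

theorem mul_def (x y : Heis b) : x * y = ⟨x.c + y.c + x.q ⬝ᵥ y.p, x.p + y.p, x.q + y.q⟩ := rfl
theorem one_def : (1 : Heis b) = ⟨0, 0, 0⟩ := rfl
theorem inv_def (x : Heis b) : x⁻¹ = ⟨-x.c + x.q ⬝ᵥ x.p, -x.p, -x.q⟩ := rfl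

/-- central elements -/
def cen (c : ZMod 2) : Heis b := ⟨c, 0, 0⟩

theorem cen_comm (c : ZMod 2) (x : Heis b) : cen c * x = x * cen c := by
  simp only [cen, mul_def]
  apply Heis.ext <;> simp [add_comm]

theorem cen_add (c d : ZMod 2) : (cen (c + d) : Heis b) = cen c * cen d := by
  simp only [cen, mul_def]
  apply Heis.ext <;> simp

theorem comm_eq (x y : Heis b) : ⁅x, y⁆ = cen (x.q ⬝ᵥ y.p + y.q ⬝ᵥ x.p) := by
  rw [commutatorElement_def, mul_inv_eq_iff_eq_mul, mul_inv_eq_iff_eq_mul]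
  simp only [cen, mul_def]
  apply Heis.ext
  · simp only [zero_dotProduct, zero_add, add_zero]
    have : ∀ t : ZMod 2, t + t = 0 := by decide
    have h := this (y.q ⬝ᵥ x.p)
    linear_combination (norm := ring_nf) -h
  · simp [add_comm]
  · simp [add_comm]

theorem cen_zero : (cen 0 : Heis b) = 1 := rfl

theorem cen_neg (c : ZMod 2) : (cen (-c) : Heis b) = (cen c)⁻¹ := by
  rw [eq_inv_iff_mul_eq_one, ← cen_add, neg_add_cancel, cen_zero]

theorem prod1 (τ : Fin b → Heis b) (d : Fin b → ZMod 2) (L : List (Fin b)) :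
    (L.reverse.map fun j => cen (d j) * (τ j)⁻¹).prod * (L.map τ).prod =
      cen ((L.map d).sum) := by
  induction L with
  | nil => simp [cen_zero]
  | cons a L ih =>
    simp only [List.reverse_cons, List.map_append, List.prod_append, List.map_cons, List.map_nil,
      List.prod_cons, List.prod_nil, mul_one, List.sum_cons, cen_add]
    rw [← ih]
    set Q := (L.reverse.map fun j => cen (d j) * (τ j)⁻¹).prod
    calc Q * (cen (d a) * (τ a)⁻¹) * (τ a * (L.map τ).prod) = (Q * cen (d a)) * (L.map τ).prod := by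
          group
      _ = (cen (d a) * Q) * (L.map τ).prod := by rw [cen_comm]
      _ = _ := by group

theorem prod2 (τ : Fin b → Heis b) (d : Fin b → ZMod 2) (L : List (Fin b)) :
    (L.map fun j => cen (d j) * τ j).prod * (L.reverse.map fun j => (τ j)⁻¹).prod =
      cen ((L.map d).sum) := by
  induction L with
  | nil => simp [cen_zero]
  | cons a L ih =>
    simp only [List.reverse_cons, List.map_append, List.prod_append, List.map_cons, List.map_nil,
      List.prod_cons, List.prod_nil, mul_one, List.sum_cons, cen_add]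
    have h1 : cen (d a) * τ a * (L.map fun j => cen (d j) * τ j).prod *
        ((L.reverse.map fun j => (τ j)⁻¹).prod * (τ a)⁻¹) =
        cen (d a) * (τ a * ((L.map fun j => cen (d j) * τ j).prod *
          (L.reverse.map fun j => (τ j)⁻¹).prod)) * (τ a)⁻¹ := by group
    rw [h1, ih, ← cen_comm]
    group

theorem sum_finRange (d : Fin b → ZMod 2) : ((List.finRange b).map d).sum = ∑ j, d j := by
  rw [← List.sum_toFinset]
  · simp
  · exact List.nodup_finRange b

/-- the images of the generators -/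
def img (S T : Matrix (Fin b) (Fin b) (ZMod 2)) : Gen b → Heis b
  | .r1 j => ⟨0, Pi.single j 1, 0⟩
  | .t1 j => ⟨0, 0, fun i => S i j⟩
  | .r2 k => ⟨0, fun i => T i k, 0⟩
  | .t2 k => ⟨0, 0, Pi.single k 1⟩
  | .a12 => cen 1

theorem img_rel (S T : Matrix (Fin b) (Fin b) (ZMod 2)) (hST : S.transpose * T = 1)
    (hS : S.trace = 1) (hT : T.trace = 1) {x y : FreeGroup (Gen b)} (h : Rel b x y) :
    FreeGroup.lift (img S T) x = FreeGroup.lift (img S T) y := by
  have hAx : ∀ x : Heis b, ⁅x, cen 1⁆ = 1 := fun x => by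
    rw [comm_iff]; exact (cen_comm 1 x).symm
  have hAi : ∀ x : Heis b, ⁅(cen 1 : Heis b)⁻¹, x⁆ = 1 := fun x => by
    rw [← cen_neg, comm_iff]; exact cen_comm _ x
  have hST' : ∀ j k, (fun i => S i j) ⬝ᵥ (fun i => T i k) = if j = k then 1 else 0 := by
    intro j k
    have := congrFun (congrFun hST j) k
    rw [Matrix.mul_apply, Matrix.one_apply] at this
    exact this
  have h22 : ∀ u v : Heis b, (cen 1)⁻¹ * u * v⁻¹ * cen 1 * v * u⁻¹ = 1 := by
    intro u v
    calc (cen 1)⁻¹ * u * v⁻¹ * cen 1 * v * u⁻¹ = (cen 1)⁻¹ * (u * v⁻¹ * cen 1) * v * u⁻¹ := by group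
      _ = (cen 1)⁻¹ * (cen 1 * (u * v⁻¹)) * v * u⁻¹ := by rw [cen_comm 1 (u * v⁻¹)]
      _ = 1 := by group
  have h33 : ∀ u v : Heis b, u⁻¹ * cen 1 * u * (cen 1)⁻¹ * v * cen 1 * u⁻¹ * (cen 1)⁻¹ * u * v⁻¹ =
      1 := by
    intro u v
    calc u⁻¹ * cen 1 * u * (cen 1)⁻¹ * v * cen 1 * u⁻¹ * (cen 1)⁻¹ * u * v⁻¹ =
        u⁻¹ * (cen 1 * u) * (cen 1)⁻¹ * v * (cen 1 * u⁻¹) * (cen 1)⁻¹ * u * v⁻¹ := by group
      _ = u⁻¹ * (u * cen 1) * (cen 1)⁻¹ * v * (u⁻¹ * cen 1) * (cen 1)⁻¹ * u * v⁻¹ := by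
          rw [cen_comm 1 u, cen_comm 1 u⁻¹]
      _ = 1 := by group
  have h11 : ∀ u : Heis b, u⁻¹ * cen 1 * u = cen 1 := by
    intro u
    rw [mul_assoc, cen_comm 1 u]; group
  have h2 : (cen 1 : Heis b)⁻¹ = cen 1 := by rw [← cen_neg]; rfl
  cases h with
  | surface₁ =>
    simp only [map_mul, map_list_prod, List.map_map, Function.comp_def, map_commutatorElement,
      map_inv, ρ₁, τ₁, A₁₂, FreeGroup.lift_apply_of]
    have e1 : ∀ j, ⁅(img S T (.r1 j))⁻¹, (img S T (.t1 j))⁻¹⁆ = cen (S j j) := by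
      intro j
      rw [comm_eq]
      congr 1
      simp [img, inv_def]
    simp only [e1]
    rw [prod1 (fun j => img S T (.t1 j)) (fun j => S j j), sum_finRange]
    show cen S.trace = cen 1
    rw [hS]
  | surface₂ =>
    simp only [map_mul, map_list_prod, List.map_map, Function.comp_def, map_commutatorElement,
      map_inv, ρ₂, τ₂, A₁₂, FreeGroup.lift_apply_of]
    have e1 : ∀ j, ⁅(img S T (.r2 j))⁻¹, img S T (.t2 j)⁆ = cen (-T j j) := by
      intro j
      rw [comm_eq]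
      congr 1
      simp [img, inv_def]
    simp only [e1]
    rw [prod2 (fun j => img S T (.t2 j)) (fun j => -T j j), sum_finRange,
      Finset.sum_neg_distrib]
    show cen (-T.trace) = (cen 1)⁻¹
    rw [hT, cen_neg]
  | rr_lt j k h => simp [ρ₁, ρ₂, map_commutatorElement, comm_eq, img, cen_zero]
  | rr_eq j => simp [ρ₁, ρ₂, map_commutatorElement, comm_eq, img, cen_zero]
  | rr_gt j k h =>
    have : FreeGroup.lift (img S T) ((A₁₂ b)⁻¹ * ρ₂ k * (ρ₂ j)⁻¹ * A₁₂ b * ρ₂ j * (ρ₂ k)⁻¹) = 1 := by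
      simp only [map_mul, map_inv, ρ₂, A₁₂, FreeGroup.lift_apply_of]
      exact h22 _ _
    rw [this]
    simp [ρ₁, ρ₂, map_commutatorElement, comm_eq, img, cen_zero]
  | rt_lt j k h =>
    simp [ρ₁, τ₂, map_commutatorElement, comm_eq, img, cen_zero, h.ne']
  | rt_eq j =>
    simp [ρ₁, τ₂, A₁₂, map_commutatorElement, comm_eq, img, h2]
  | rt_gt j k h =>
    have : FreeGroup.lift (img S T) ⁅(A₁₂ b)⁻¹, τ₂ k⁆ = 1 := by
      simp only [map_commutatorElement, map_inv, A₁₂, FreeGroup.lift_apply_of]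
      exact hAi _
    rw [this]
    simp [ρ₁, τ₂, map_commutatorElement, comm_eq, img, cen_zero, h.ne]
  | ra j =>
    simp only [map_commutatorElement, ρ₁, ρ₂, A₁₂, FreeGroup.lift_apply_of, map_inv]
    exact (hAx _).trans (hAx _).symm
  | tr_lt j k h =>
    simp [τ₁, ρ₂, map_commutatorElement, comm_eq, img, cen_zero, hST', h.ne]
  | tr_eq j =>
    have : FreeGroup.lift (img S T) ((τ₂ j)⁻¹ * A₁₂ b * τ₂ j) = cen 1 := by
      simp only [map_mul, map_inv, τ₂, A₁₂, FreeGroup.lift_apply_of]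
      exact h11 _
    rw [this]
    simp [τ₁, ρ₂, map_commutatorElement, comm_eq, img, hST']
  | tr_gt j k h =>
    have : FreeGroup.lift (img S T) ⁅(τ₂ j)⁻¹, A₁₂ b⁆ = 1 := by
      simp only [map_commutatorElement, map_inv, τ₂, A₁₂, FreeGroup.lift_apply_of]
      exact hAx _
    rw [this]
    simp [τ₁, ρ₂, map_commutatorElement, comm_eq, img, cen_zero, hST', h.ne']
  | tt_lt j k h => simp [τ₁, τ₂, map_commutatorElement, comm_eq, img, cen_zero]
  | tt_eq j =>
    have : FreeGroup.lift (img S T) ⁅(τ₂ j)⁻¹, A₁₂ b⁆ = 1 := by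
      simp only [map_commutatorElement, map_inv, τ₂, A₁₂, FreeGroup.lift_apply_of]
      exact hAx _
    rw [this]
    simp [τ₁, τ₂, map_commutatorElement, comm_eq, img, cen_zero]
  | tt_gt j k h =>
    have : FreeGroup.lift (img S T) ((τ₂ j)⁻¹ * A₁₂ b * τ₂ j * (A₁₂ b)⁻¹ * τ₂ k * A₁₂ b *
        (τ₂ j)⁻¹ * (A₁₂ b)⁻¹ * τ₂ j * (τ₂ k)⁻¹) = 1 := by
      simp only [map_mul, map_inv, τ₂, A₁₂, FreeGroup.lift_apply_of]
      exact h33 _ _
    rw [this]
    simp [τ₁, τ₂, map_commutatorElement, comm_eq, img, cen_zero]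
  | ta j =>
    simp only [map_commutatorElement, τ₁, τ₂, A₁₂, FreeGroup.lift_apply_of, map_inv]
    exact (hAx _).trans (hAx _).symm

/-- `Heis b` as a set -/
def heisEquiv : Heis b ≃ ZMod 2 × (Fin b → ZMod 2) × (Fin b → ZMod 2) where
  toFun x := ⟨x.c, x.p, x.q⟩
  invFun x := ⟨x.1, x.2.1, x.2.2⟩
  left_inv _ := rfl
  right_inv _ := rfl

instance : Finite (Heis b) := Finite.of_equiv _ heisEquiv.symm

theorem card_heis : Nat.card (Heis b) = 2 ^ (2 * b + 1) := by
  rw [Nat.card_congr heisEquiv, Nat.card_prod, Nat.card_prod, Nat.card_fun]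
  simp only [Nat.card_eq_fintype_card, ZMod.card, Fintype.card_fin]
  ring

/-- The upper bound: `Heis b` is an admissible quotient. -/
theorem upper_bound (hb : 1 ≤ b) : ∃ φ : P₂ b →* Heis b, Function.Surjective φ ∧
    φ (gen .a12) ≠ 1 := by
  obtain ⟨S, T, hST, hS, hT⟩ := exists_matrices b hb
  have hr : ∀ r ∈ {w : FreeGroup (Gen b) | ∃ x y, Rel b x y ∧ w = x * y⁻¹},
      FreeGroup.lift (img S T) r = 1 := by
    rintro _ ⟨x, y, h, rfl⟩
    rw [map_mul, map_inv, img_rel S T hST hS hT h, mul_inv_cancel]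
  refine ⟨PresentedGroup.toGroup hr, ?_, ?_⟩
  · set φ := PresentedGroup.toGroup hr with hφ
    have hgen : ∀ s, img S T s ∈ φ.range := fun s => ⟨gen s, PresentedGroup.toGroup.of hr⟩
    have hcen : ∀ c : ZMod 2, (cen c : Heis b) ∈ φ.range := by
      intro c
      have : c = 0 ∨ c = 1 := by revert c; decide
      rcases this with rfl | rfl
      · exact φ.range.one_mem
      · exact hgen .a12
    have hp : ∀ p : Fin b → ZMod 2, (⟨0, p, 0⟩ : Heis b) ∈ φ.range := by
      intro p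
      let H : AddSubmonoid (Fin b → ZMod 2) :=
        { carrier := {p | (⟨0, p, 0⟩ : Heis b) ∈ φ.range}
          zero_mem' := φ.range.one_mem
          add_mem' := by
            intro p p' h h'
            have := φ.range.mul_mem h h'
            rw [mul_def] at this
            simpa using this }
      have : p ∈ H := by
        rw [← Finset.univ_sum_single p]
        apply sum_mem
        intro j _
        have : p j = 0 ∨ p j = 1 := by generalize p j = c; revert c; decide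
        rcases this with h | h
        · rw [h, Pi.single_zero]; exact H.zero_mem
        · rw [h]; exact hgen (.r1 j)
      exact this
    have hq : ∀ q : Fin b → ZMod 2, (⟨0, 0, q⟩ : Heis b) ∈ φ.range := by
      intro q
      let H : AddSubmonoid (Fin b → ZMod 2) :=
        { carrier := {q | (⟨0, 0, q⟩ : Heis b) ∈ φ.range}
          zero_mem' := φ.range.one_mem
          add_mem' := by
            intro p p' h h'
            have := φ.range.mul_mem h h'
            rw [mul_def] at this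
            simpa using this }
      have : q ∈ H := by
        rw [← Finset.univ_sum_single q]
        apply sum_mem
        intro j _
        have : q j = 0 ∨ q j = 1 := by generalize q j = c; revert c; decide
        rcases this with h | h
        · rw [h, Pi.single_zero]; exact H.zero_mem
        · rw [h]; exact hgen (.t2 j)
      exact this
    intro x
    have hx : x = cen x.c * ((⟨0, x.p, 0⟩ : Heis b) * ⟨0, 0, x.q⟩) := by
      rw [mul_def, mul_def]
      apply Heis.ext <;> simp [cen]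
    rw [hx]
    exact φ.range.mul_mem (hcen _) (φ.range.mul_mem (hp _) (hq _))
  · intro h
    have h1 : PresentedGroup.toGroup hr (gen .a12) = cen 1 := PresentedGroup.toGroup.of hr
    rw [h1] at h
    have : (1 : ZMod 2) = 0 := congrArg Heis.c h
    exact absurd this (by decide)

end Upper

/-- **Theorem.**  For every `b ≥ 2` the smallest order of an admissible quotient of `P₂(Σ_b)`,
that is, of a finite group `G` with a surjective homomorphism `φ : P₂(Σ_b) → G` such that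
`φ(A₁₂) ≠ 1`, is `2 ^ (2 b + 1)`. -/
theorem result : ∀ b : ℕ, 2 ≤ b →
    IsLeast {n : ℕ | ∃ (G : Type) (_ : Group G) (φ : P₂ b →* G), Finite G ∧
      Function.Surjective φ ∧ φ (gen .a12) ≠ 1 ∧ n = Nat.card G} (2 ^ (2 * b + 1)) := by
  intro b hb
  constructor
  · obtain ⟨φ, h1, h2⟩ := upper_bound (b := b) (by omega)
    exact ⟨Heis b, inferInstance, φ, inferInstance, h1, h2, card_heis.symm⟩
  · rintro _ ⟨G, _, φ, hfin, h1, h2, rfl⟩
    exact lower_bound hb φ h1 h2

end Pool.Agent.Results.MP_97f678_al.MinimalOrder
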